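import Pool.Agent.R795.Myc.Main

/-!
# There is no discrete weak Mycielski set in Euclidean 3-space
-/

open Pool.Agent.R795.Myc

namespace Pool.Agent.Results.MP_9ec85a_gt.NoDiscreteExample

/-- Euclidean 3-space. -/
abbrev E3 : Type := EuclideanSpace ℝ (Fin 3)

/-- `A` and `B` are congruent: some isometry of Euclidean 3-space maps `A` onto `B`. -/
def Congruent3 (A B : Set E3) : Prop := ∃ g : E3 ≃ᵢ E3, g '' A = B

/-- Weak Mycielski sets. -/
def WeakMycielski (X : Set E3) : Prop :=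
  ∃ p ∈ X, ∃ q ∈ X, p ≠ q ∧ Congruent3 (X \ {p}) X ∧ Congruent3 (X \ {q}) X

/-- Discrete sets: every point `x` of `X` is isolated in `X`. -/
def IsDiscreteSet (X : Set E3) : Prop :=
  ∀ x ∈ X, ∃ ε > 0, ∀ y ∈ X, dist y x < ε → y = x

theorem aux {X : Set E3} {p : E3} (h : Congruent3 (X \ {p}) X) :
    ∃ g : E3 ≃ᵃⁱ[ℝ] E3, g '' X = X \ {p} := by
  obtain ⟨g, hg⟩ := h
  refine ⟨g.symm.toRealAffineIsometryEquiv, ?_⟩
  have h1 : (g.symm.toRealAffineIsometryEquiv : E3 → E3) '' X = g.symm '' X := by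
    rw [IsometryEquiv.coeFn_toRealAffineIsometryEquiv]
  rw [h1]
  conv_lhs => rw [← hg]
  rw [Set.image_image]
  simp

/-- There is no discrete weak Mycielski set in Euclidean 3-space. -/
theorem result : ¬ ∃ X : Set E3, WeakMycielski X ∧ IsDiscreteSet X := by
  rintro ⟨X, ⟨p, hp, q, hq, hpq, h1, h2⟩, hX⟩
  obtain ⟨g, hg⟩ := aux h1
  obtain ⟨h, hh⟩ := aux h2
  exact core (by simp) hX hp hq hpq g h hg hh

end Pool.Agent.Results.MP_9ec85a_gt.NoDiscreteExample
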